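import Pool.Agent.H62.BC.Targets

/-!
Strictly triangular matrices as `(j - 1) D G + G D` with `D G` nilpotent (board `cat2_modules`,
row `A4`).
-/

open TensorProduct Module

namespace Pool.Agent.H49.BC

open Pool.Agent.H12.Defect Pool.Agent.H15.Defect Pool.Agent.H15.CX Pool.Agent.H2.WG
open Pool.Agent.H62.BC

universe u

theorem a4_nil {k : Type u} [Field k] {h : ℕ} (A : Matrix (Fin h) (Fin h) k) (f : Fin h → ℕ)
    (hf : ∀ i, f i ≤ h) (hA : ∀ i l, A i l ≠ 0 → f l < f i) : IsNilpotent A := by
  have key : ∀ (r : ℕ) (i l : Fin h), (A ^ r) i l ≠ 0 → f l + r ≤ f i := by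
    intro r
    induction r with
    | zero =>
      intro i l hil
      rw [pow_zero] at hil
      have : i = l := by
        by_contra hne
        exact hil (Matrix.one_apply_ne hne)
      subst this
      simp
    | succ r ih =>
      intro i l hil
      rw [pow_succ, Matrix.mul_apply] at hil
      obtain ⟨m, -, hm⟩ := Finset.exists_ne_zero_of_sum_ne_zero hil
      have h1 := ih i m (left_ne_zero_of_mul hm)
      have h2 := hA m l (right_ne_zero_of_mul hm)
      omega
  refine ⟨h + 1, ?_⟩
  ext i l
  by_contra hne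
  have h1 := key (h + 1) i l hne
  have h2 := hf i
  omega

theorem a4_d {k : Type u} [Field k] [Infinite k] (h j : ℕ) (hj : 1 ≤ j) :
    ∃ d : Fin h → k, ∀ i l, i ≠ l → ((j - 1 : ℕ) : k) * d i + d l ≠ 0 := by
  have hc : ((j - 1 : ℕ) : k) = (j : k) - 1 := by
    rw [Nat.cast_sub hj, Nat.cast_one]
  by_cases h0 : (j : k) = 0
  · refine ⟨fun i => Infinite.natEmbedding k i, fun i l hil h1 => hil ?_⟩
    rw [hc, h0] at h1
    have h2 : Infinite.natEmbedding k (l : ℕ) = Infinite.natEmbedding k (i : ℕ) := by
      linear_combination h1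
    exact Fin.ext ((Infinite.natEmbedding k).injective h2).symm
  · refine ⟨fun _ => 1, fun i l _ h1 => h0 ?_⟩
    rw [hc] at h1
    linear_combination h1

theorem pf_A4 : T_A4.{u} := by
  intro k _ _ h j N hj hN
  obtain ⟨d, hd⟩ := a4_d (k := k) h j hj
  have hdiag : ∀ i, N i i = 0 := fun i => by
    rcases hN with hN | hN
    · exact hN i i le_rfl
    · exact hN i i le_rfl
  let G : Matrix (Fin h) (Fin h) k := Matrix.of fun i l => N i l / (((j - 1 : ℕ) : k) * d i + d l)
  have hG : ∀ i l, G i l = N i l / (((j - 1 : ℕ) : k) * d i + d l) := fun i l => rfl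
  have hDG : ∀ i l, (Matrix.diagonal d * G) i l = d i * G i l := fun i l => by
    rw [Matrix.diagonal_mul]
  refine ⟨Matrix.diagonal d, G, ?_, ?_⟩
  · rcases hN with hN | hN
    · refine a4_nil _ (fun i => i) (fun i => i.2.le) fun i l hil => ?_
      rw [hDG, hG] at hil
      by_contra hlt
      have h1 : i ≤ l := by
        change ¬ ((l : ℕ) < (i : ℕ)) at hlt
        exact Fin.le_def.2 (not_lt.1 hlt)
      exact hil (by rw [hN i l h1, zero_div, mul_zero])
    · refine a4_nil _ (fun i => h - i) (fun i => Nat.sub_le _ _) fun i l hil => ?_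
      rw [hDG, hG] at hil
      by_contra hlt
      have h1 : l ≤ i := by
        have := i.2
        have := l.2
        change ¬ (h - (l : ℕ) < h - (i : ℕ)) at hlt
        exact Fin.le_def.2 (by omega)
      exact hil (by rw [hN i l h1, zero_div, mul_zero])
  · ext i l
    rw [Matrix.add_apply, Matrix.smul_apply, hDG, Matrix.mul_diagonal, nsmul_eq_mul, hG]
    by_cases hil : i = l
    · subst hil
      rw [hdiag, zero_div, mul_zero, mul_zero, zero_mul, add_zero]
    · have h1 := hd i l hil
      field_simp

end Pool.Agent.H49.BC
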