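import Pool.Agent.H85.BC.Basic

/-!
# Row CGAP of the board bcg_modules: the gap in the atomic corner
-/

set_option autoImplicit false

open scoped InnerProductSpace Topology
open Filter

namespace Pool.Agent.H49.BC

open Pool.Agent.H85.BC

theorem unitary_norm_le {H : Type} [NormedAddCommGroup H] [InnerProductSpace ℂ H]
    [CompleteSpace H] {W : H →L[ℂ] H} (hW : star W * W = 1) : ‖W‖ ≤ 1 := by
  have h1 : ‖W‖ * ‖W‖ = ‖(1 : H →L[ℂ] H)‖ := by
    rw [← hW]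
    exact (CStarRing.norm_star_mul_self (x := W)).symm
  have h2 : ‖(1 : H →L[ℂ] H)‖ ≤ 1 := ContinuousLinearMap.norm_id_le
  by_contra h
  rw [not_le] at h
  nlinarith

theorem pf_CGAP {H : Type} [NormedAddCommGroup H] [InnerProductSpace ℂ H] [CompleteSpace H]
    (hGEN : T_GEN H) : T_CGAP H := by
  intro N ξ hξ A hA p hp hp34 U x C hxN hxp hxC hxA
  by_contra hnot
  obtain ⟨G, hG, δ, hδ, hT⟩ := hA
  obtain ⟨B, hBd⟩ : ∃ B : ℝ, B = max C 1 := ⟨_, rfl⟩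
  have hB1 : 1 ≤ B := by
    rw [hBd]
    exact le_max_right _ _
  have hBC : C ≤ B := by
    rw [hBd]
    exact le_max_left _ _
  have hB0 : 0 < B := by linarith
  have hBne : (B : ℂ) ≠ 0 := by exact_mod_cast hB0.ne'
  obtain ⟨b, hbd⟩ : ∃ b : ℂ, b = (B : ℂ)⁻¹ := ⟨_, rfl⟩
  have hbn : ‖b‖ = B⁻¹ := by
    rw [hbd, norm_inv, Complex.norm_real, Real.norm_of_nonneg hB0.le]
  have hscal : ∀ n, (b • x n - (tr ξ (b • x n) / tr ξ p) • p) =
      b • (x n - (tr ξ (x n) / tr ξ p) • p) := by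
    intro n
    rw [tr_smul, smul_sub, smul_smul, mul_div_assoc]
  obtain ⟨W, hWN, hW1, hW2, hWp, hWt, hWG⟩ := hGEN N ξ hξ (A : Set (H →L[ℂ] H)) p hp ℕ U
    (fun n => b • x n) (fun n => smul_mem' N b (hxN n))
    (fun n => by
      show p * (b • x n) * p = b • x n
      rw [mul_smul_comm, smul_mul_assoc, hxp n])
    (fun n => by
      show ‖b • x n‖ ≤ 1
      rw [norm_smul, hbn]
      have h1 : ‖x n‖ ≤ B := (hxC n).trans hBC
      calc B⁻¹ * ‖x n‖ ≤ B⁻¹ * B := mul_le_mul_of_nonneg_left h1 (inv_nonneg.2 hB0.le)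
        _ = 1 := inv_mul_cancel₀ hB0.ne')
    (fun y hy => by
      have h1 := (hxA y hy).const_mul (B⁻¹)
      rw [mul_zero] at h1
      refine h1.congr fun n => ?_
      show B⁻¹ * ‖(x n * y - y * x n) ξ‖ = ‖((b • x n) * y - y * (b • x n)) ξ‖
      rw [smul_mul_assoc, mul_smul_comm, ← smul_sub, ContinuousLinearMap.smul_apply, norm_smul,
        hbn])
    (fun hc => by
      apply hnot
      have h1 := hc.const_mul B
      rw [mul_zero] at h1
      refine h1.congr fun n => ?_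
      show B * ‖(b • x n - (tr ξ (b • x n) / tr ξ p) • p) ξ‖ =
        ‖(x n - (tr ξ (x n) / tr ξ p) • p) ξ‖
      rw [hscal, ContinuousLinearMap.smul_apply, norm_smul, hbn, ← mul_assoc,
        mul_inv_cancel₀ hB0.ne', one_mul])
    G hG (min δ (1 / 100)) (lt_min hδ (by norm_num))
  have hWn : ‖W‖ ≤ 1 := unitary_norm_le hW1
  have h1 := hT W hWN hWn fun g hg => lt_of_lt_of_le (hWG g hg) (min_le_left _ _)
  have h2 : ‖tr ξ (W * p)‖ < 1 / 100 := lt_of_lt_of_le hWt (min_le_right _ _)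
  have h3 : tr ξ W = tr ξ (W * p) + tr ξ (1 - p) := by
    rw [← hWp, ← tr_add, ← mul_add, add_sub_cancel, mul_one]
  have h4 : tr ξ (1 - p) = ((1 - ‖p ξ‖ ^ 2 : ℝ) : ℂ) := by
    rw [tr_sub, hξ.tr_one, tr_proj ξ hp.proj]
    push_cast
    rfl
  have hp1 : ‖p ξ‖ ^ 2 ≤ 1 := by
    have h5 := proj_apply_norm_le hp.proj ξ
    rw [hξ.norm_eq] at h5
    nlinarith [norm_nonneg (p ξ)]
  have h5 : ‖tr ξ (1 - p)‖ ≤ 1 / 4 := by
    rw [h4, Complex.norm_real, Real.norm_of_nonneg (by linarith)]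
    linarith
  have h6 : ‖tr ξ W‖ ≤ 1 / 100 + 1 / 4 := by
    rw [h3]
    refine (norm_add_le _ _).trans ?_
    linarith
  have h7 : ‖W ξ‖ = 1 := by
    have h8 := tr_star_mul_self ξ W
    rw [hW1, hξ.tr_one] at h8
    have h9 : (1 : ℝ) = ‖W ξ‖ ^ 2 := by exact_mod_cast h8
    have h10 : ‖W ξ‖ ^ 2 = 1 ^ 2 := by
      rw [one_pow]
      exact h9.symm
    exact (pow_left_inj₀ (norm_nonneg _) zero_le_one two_ne_zero).1 h10
  have h8 : ‖W ξ‖ - ‖tr ξ W • ξ‖ ≤ ‖W ξ - tr ξ W • ξ‖ := norm_sub_norm_le _ _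
  rw [h7, norm_smul, hξ.norm_eq, mul_one] at h8
  linarith

end Pool.Agent.H49.BC
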